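import Pool.Agent.H30.LT.Targets
import Pool.Agent.H27.LV.Curve

/-!
# Board `al_modules`, row LO5: the order at a place
-/

set_option autoImplicit false

namespace Pool.Agent.H1.LT.LO5

open MvPolynomial SC Pool.Agent.H27.LV Pool.Agent.H30.AV Pool.Agent.H30.AW Pool.Agent.H30.AX
open Pool.Agent.H30.LT

private theorem aeval_scale {k K σ : Type} [Field k] [Field K] [Algebra k K]
    {g : MvPolynomial σ k} {d : ℕ} (hg : g.IsHomogeneous d) (c : K) (z : σ → K) :
    aeval (fun j => c * z j) g = c ^ d * aeval z g := by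
  rw [MvPolynomial.aeval_def, MvPolynomial.aeval_def, MvPolynomial.eval₂_eq, MvPolynomial.eval₂_eq,
    Finset.mul_sum]
  refine Finset.sum_congr rfl fun m hm => ?_
  have h1 : ∏ i ∈ m.support, (c * z i) ^ m i = c ^ d * ∏ i ∈ m.support, z i ^ m i := by
    rw [← hg (MvPolynomial.mem_support_iff.1 hm)]
    rw [Finset.prod_congr rfl fun i _ => mul_pow c (z i) (m i), Finset.prod_mul_distrib,
      Finset.prod_pow_eq_pow_sum]
    congr 2
    rw [Finsupp.weight_apply, Finsupp.sum]
    exact (Finset.sum_congr rfl fun i _ => by simp)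
  rw [h1]
  ring

section

variable {k K : Type} [Field k] [Field K] [Algebra k K] (v : DV k K)

/-- the elements of order at least zero -/
private def R0 : Subring K where
  carrier := {x | ge v 0 x}
  mul_mem' := fun {x y} hx hy => by
    have := ge.mul hx hy
    rwa [add_zero] at this
  one_mem' := ge_one v
  add_mem' := fun {x y} hx hy => ge.add hx hy
  zero_mem' := ge_zero v 0
  neg_mem' := fun {x} hx => ge.neg hx

private lemma ge_pow {t : ℤ} {x : K} (hx : ge v t x) (n : ℕ) : ge v (n * t) (x ^ n) := by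
  induction n with
  | zero => simpa using ge_one v
  | succ n ih =>
    have h := ge.mul ih hx
    rw [pow_succ]
    have e : (n : ℤ) * t + t = ((n + 1 : ℕ) : ℤ) * t := by push_cast; ring
    rwa [e] at h

private lemma ge_prod {ι : Type*} (s : Finset ι) (f : ι → K) (t : ι → ℤ)
    (h : ∀ i ∈ s, ge v (t i) (f i)) : ge v (∑ i ∈ s, t i) (∏ i ∈ s, f i) := by
  classical
  induction s using Finset.induction_on with
  | empty => simpa using ge_one v
  | insert a s ha ih =>
    rw [Finset.sum_insert ha, Finset.prod_insert ha]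
    exact ge.mul (h a (Finset.mem_insert_self _ _))
      (ih fun i hi => h i (Finset.mem_insert_of_mem hi))

private lemma ge_div {x ω : K} {μ t : ℤ} (hω : ω ≠ 0) (hμ : v.ord ω = μ)
    (hx : ge v (μ + t) x) : ge v t (x / ω) := by
  have h1 : ge v (-μ) ω⁻¹ := by
    right
    have h2 := v.ord_mul' hω (inv_ne_zero hω)
    rw [mul_inv_cancel₀ hω, v.ord_one] at h2
    omega
  have h2 := ge.mul hx h1
  rw [div_eq_mul_inv]
  have e : μ + t + -μ = t := by ring
  rwa [e] at h2

/-- the polynomials with coefficients of order at least zero -/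
private def S0 (A : Type) : Subring (MvPolynomial A K) where
  carrier := {G | ∀ m, ge v 0 (coeff m G)}
  mul_mem' := fun {x y} hx hy m => by
    classical
    rw [coeff_mul]
    refine ge_sum v _ _ _ fun p _ => ?_
    have := ge.mul (hx p.1) (hy p.2)
    rwa [add_zero] at this
  one_mem' := fun m => by
    classical
    rw [coeff_one]
    split_ifs
    · exact ge_one v
    · exact ge_zero v 0
  add_mem' := fun {x y} hx hy m => by
    rw [coeff_add]
    exact ge.add (hx m) (hy m)
  zero_mem' := fun m => by
    rw [coeff_zero]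
    exact ge_zero v 0
  neg_mem' := fun {x} hx m => by
    rw [coeff_neg]
    exact ge.neg (hx m)

private lemma C_mem {A : Type} {c : K} (hc : ge v 0 c) : (C c : MvPolynomial A K) ∈ S0 v A := by
  classical
  intro m
  rw [coeff_C]
  split_ifs
  · exact hc
  · exact ge_zero v 0

private lemma X_mem {A : Type} (i : A) : (X i : MvPolynomial A K) ∈ S0 v A := by
  classical
  intro m
  rw [coeff_X]
  split_ifs
  · exact ge_one v
  · exact ge_zero v 0

private lemma aeval_mem {A B : Type} (f : A → MvPolynomial B K) (hf : ∀ i, f i ∈ S0 v B)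
    {G : MvPolynomial A K} (hG : G ∈ S0 v A) : aeval f G ∈ S0 v B := by
  rw [MvPolynomial.aeval_def, MvPolynomial.eval₂_eq]
  refine Subring.sum_mem _ fun m _ => ?_
  refine Subring.mul_mem _ ?_ (Subring.prod_mem _ fun i _ => Subring.pow_mem _ (hf i) _)
  exact C_mem v (hG m)

private lemma aeval_val {τ : Type} (W : τ → K) (hW : ∀ s, ge v 0 (W s)) (g : MvPolynomial τ k) :
    ge v 0 (aeval W g) := by
  rw [MvPolynomial.aeval_def, MvPolynomial.eval₂_eq]
  have h : (∑ d ∈ g.support, (algebraMap k K) (coeff d g) * ∏ i ∈ d.support, W i ^ d i) ∈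
      R0 v := by
    refine Subring.sum_mem _ fun m _ => ?_
    refine Subring.mul_mem _ (ge_const v _)
      (Subring.prod_mem _ fun i _ => Subring.pow_mem _ (hW i) _)
  exact h

end

private lemma spa_hom {k : Type} [Field k] {n q M : ℕ} (a : Fin q → Fin (n + 1) → k)
    {G : MvPolynomial (Lw q n) (MvPolynomial (Zw n) k)} (hG : HomC M G) :
    (spa a G).IsHomogeneous M := by
  unfold spa
  rw [MvPolynomial.eval_eq]
  refine IsHomogeneous.sum _ _ _ fun m _ => ?_
  have h1 : (∏ i ∈ m.support, (C (a i.1 i.2) : MvPolynomial (Zw n) k) ^ m i) =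
      C (∏ i ∈ m.support, a i.1 i.2 ^ m i) := by
    rw [map_prod]
    exact Finset.prod_congr rfl fun i _ => (map_pow _ _ _).symm
  rw [h1]
  have h2 := (hG m).mul (isHomogeneous_C (Zw n) (∏ i ∈ m.support, a i.1 i.2 ^ m i))
  rwa [add_zero] at h2

private lemma aeval_spa {k K : Type} [Field k] [Field K] [Algebra k K] {n q : ℕ}
    (a : Fin q → Fin (n + 1) → k) (W : Zw n → K)
    (G : MvPolynomial (Lw q n) (MvPolynomial (Zw n) k)) :
    aeval W (spa a G) = eval (fun p => algebraMap k K (a p.1 p.2)) (sz W G) := by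
  unfold spa sz
  rw [MvPolynomial.eval_map, MvPolynomial.eval_eq, MvPolynomial.eval₂_eq, map_sum]
  refine Finset.sum_congr rfl fun m _ => ?_
  rw [map_mul, map_prod]
  congr 1
  refine Finset.prod_congr rfl fun i _ => ?_
  rw [map_pow, aeval_C]

theorem pf_LO5 (hPSI : T_PSI) : T_LO5 := by
  intro k K _ _ _ n q w M v W p p' μ₀ a G o hRk hW0 hord hge hHom hI ho0 hlin
  have hne : p ≠ p' := by
    rintro rfl
    exact hW0 (hRk.1 p)
  set ω : K := W (p, p') with hω
  set W' : Zw n → K := fun s => W s / ω with hW'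
  have hWW : W = fun s => ω * W' s := by
    funext s
    rw [hW']
    field_simp
  have hRk' : Rk2 W' := by
    refine ⟨fun i => ?_, fun i j => ?_, fun i j l m => ?_⟩
    · show W (i, i) / ω = 0
      rw [hRk.1 i, zero_div]
    · show W (i, j) / ω = - (W (j, i) / ω)
      rw [hRk.2.1 i j, neg_div]
    · show W (i, j) / ω * (W (l, m) / ω) - W (i, l) / ω * (W (j, m) / ω) +
        W (i, m) / ω * (W (j, l) / ω) = 0
      have h := hRk.2.2 i j l m
      have e : W (i, j) / ω * (W (l, m) / ω) - W (i, l) / ω * (W (j, m) / ω) +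
        W (i, m) / ω * (W (j, l) / ω) =
        (W (i, j) * W (l, m) - W (i, l) * W (j, m) + W (i, m) * W (j, l)) / ω ^ 2 := by
        field_simp
      rw [e, h, zero_div]
  have hW'1 : W' (p, p') = 1 := div_self hW0
  have hW'0 : ∀ s, ge v 0 (W' s) := fun s => ge_div v hW0 hord (by
    rw [add_zero]; exact hge s)
  -- the ideals
  have hlf : ∀ i s, lf W q i s = C ω * lf W' q i s := by
    intro i s
    unfold lf
    rw [Finset.mul_sum]
    refine Finset.sum_congr rfl fun t _ => ?_
    rw [← mul_assoc, ← C_mul]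
    congr 2
    exact congrFun hWW (s, t)
  have hnI : ∀ i, nI W q i ≤ nI W' q i := by
    intro i
    unfold nI
    rw [Ideal.span_le]
    rintro _ ⟨s, rfl⟩
    rw [hlf i s]
    exact Ideal.mul_mem_left _ _ (Ideal.subset_span ⟨s, rfl⟩)
  have hsz : sz W G = C (ω ^ M) * sz W' G := by
    unfold sz
    refine MvPolynomial.ext _ _ fun m => ?_
    rw [coeff_C_mul, coeff_map, coeff_map]
    show aeval W (coeff m G) = ω ^ M * aeval W' (coeff m G)
    conv_lhs => rw [hWW]
    exact aeval_scale (hHom m) ω W'
  have hI' : ∀ i, sz W' G ∈ nI W' q i ^ w := by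
    intro i
    have h1 : sz W' G = C ((ω ^ M)⁻¹) * sz W G := by
      rw [hsz, ← mul_assoc, ← C_mul, inv_mul_cancel₀ (pow_ne_zero _ hW0), C_1, one_mul]
    rw [h1]
    exact Ideal.mul_mem_left _ _ (Ideal.pow_right_mono (hnI i) w (hI i))
  -- the substitution
  set H := psub W' q p p' (sz W' G) with hH
  have hHm : ∀ m ∈ H.support, ∀ i, w ≤ m (i, p) + m (i, p') := by
    intro m hm i
    by_contra hcon
    push Not at hcon
    exact (mem_support_iff.1 hm)
      ((hPSI K n W' p p' hRk' (by rw [hW'1]; exact one_ne_zero) q w i (sz W' G)).1 (hI' i) m hcon)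
  have hsz0 : sz W' G ∈ S0 v (Lw q n) := by
    intro m
    unfold sz
    rw [coeff_map]
    exact aeval_val v W' hW'0 _
  have hH0 : H ∈ S0 v (Lw q n) := by
    rw [hH]
    unfold psub
    refine aeval_mem v _ (fun x => ?_) hsz0
    have hsum : ∀ r : Fin (n + 1), (∑ t ∈ Finset.univ.filter (fun t => t ≠ p ∧ t ≠ p'),
        (C (W' (r, t)) : MvPolynomial (Lw q n) K) * X (x.1, t)) ∈ S0 v (Lw q n) := fun r =>
      Subring.sum_mem _ fun t _ => Subring.mul_mem _ (C_mem v (hW'0 _)) (X_mem v _)
    split_ifs
    · exact Subring.sub_mem _ (X_mem v _) (hsum p)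
    · exact Subring.add_mem _ (Subring.neg_mem _ (X_mem v _)) (hsum p')
    · exact Subring.mul_mem _ (C_mem v (hW'0 _)) (X_mem v _)
  -- the values
  let α : Fin q → Fin (n + 1) → K := fun i t => algebraMap k K (a i t)
  let Y : Lw q n → K := fun x => if x.2 = p' then ∑ t, W' (p, t) * α x.1 t
    else if x.2 = p then ∑ t, W' (p', t) * α x.1 t else α x.1 x.2
  have hYp' : ∀ i, Y (i, p') = ∑ t, W' (p, t) * α i t := fun i => if_pos rfl
  have hYp : ∀ i, Y (i, p) = ∑ t, W' (p', t) * α i t := fun i => by
    show (if p = p' then _ else _) = _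
    rw [if_neg hne]
    exact if_pos rfl
  have hYt : ∀ i t, t ≠ p → t ≠ p' → Y (i, t) = α i t := fun i t h1 h2 => by
    show (if t = p' then _ else _) = _
    rw [if_neg h2]
    exact if_neg h1
  have hsplit : ∀ f : Fin (n + 1) → K, ∑ t, f t =
      f p + f p' + ∑ t ∈ Finset.univ.filter (fun t => t ≠ p ∧ t ≠ p'), f t := by
    intro f
    have h1 : (Finset.univ : Finset (Fin (n + 1))) =
        insert p (insert p' (Finset.univ.filter (fun t => t ≠ p ∧ t ≠ p'))) := by
      ext t
      simp only [Finset.mem_univ, Finset.mem_insert, Finset.mem_filter, true_and, true_iff]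
      tauto
    conv_lhs => rw [h1]
    rw [Finset.sum_insert, Finset.sum_insert, add_assoc]
    · simp
    · simp [hne]
  have hcomp : (fun x : Lw q n => eval Y (psub W' q p p' (X x))) = fun x => α x.1 x.2 := by
    funext x
    unfold psub
    rw [aeval_X]
    have hs : ∀ r : Fin (n + 1), eval Y (∑ t ∈ Finset.univ.filter (fun t => t ≠ p ∧ t ≠ p'),
        (C (W' (r, t)) : MvPolynomial (Lw q n) K) * X (x.1, t)) =
        ∑ t ∈ Finset.univ.filter (fun t => t ≠ p ∧ t ≠ p'), W' (r, t) * α x.1 t := by
      intro r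
      rw [map_sum]
      refine Finset.sum_congr rfl fun t ht => ?_
      rw [map_mul, eval_C, eval_X]
      rw [Finset.mem_filter] at ht
      rw [hYt x.1 t ht.2.1 ht.2.2]
    obtain ⟨i, t⟩ := x
    by_cases h1 : t = p'
    · subst h1
      rw [if_pos rfl, map_sub, eval_X, hs p]
      show Y (i, t) - _ = α i t
      rw [hYp' i, hsplit, hRk'.1 p, hW'1]
      ring
    · by_cases h2 : t = p
      · subst h2
        rw [if_neg h1, if_pos rfl, map_add, map_neg, eval_X, hs p']
        show -Y (i, t) + _ = α i t
        rw [hYp i, hsplit, hRk'.1 p', hRk'.2.1 p' t, hW'1]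
        ring
      · rw [if_neg h1, if_neg h2, map_mul, eval_C, eval_X, hW'1, one_mul]
        exact hYt i t h2 h1
  have hev : eval Y H = eval (fun x : Lw q n => α x.1 x.2) (sz W' G) := by
    rw [hH, ← hcomp]
    have h1 : (eval Y).comp (psub W' q p p' : MvPolynomial (Lw q n) K →ₐ[K] _).toRingHom =
        eval (fun x : Lw q n => eval Y (psub W' q p p' (X x))) := by
      apply MvPolynomial.ringHom_ext
      · intro c
        show eval Y (psub W' q p p' (C c)) = _
        rw [eval_C]
        unfold psub
        rw [aeval_C, MvPolynomial.algebraMap_eq, eval_C]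
      · intro x
        show eval Y (psub W' q p p' (X x)) = _
        rw [eval_X]
    exact congrArg (fun φ : MvPolynomial (Lw q n) K →+* K => φ (sz W' G)) h1
  -- orders of the values
  let ex : Lw q n → ℤ := fun x => if x.2 = p' then o x.1 else if x.2 = p then o x.1 else 0
  have hlin' : ∀ i s, ge v (o i) (∑ t, W' (s, t) * α i t) := by
    intro i s
    have h1 := ge_div v hW0 hord (hlin i s)
    rw [Finset.sum_div] at h1
    have e : ∑ t, W (s, t) * algebraMap k K (a i t) / ω = ∑ t, W' (s, t) * α i t := by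
      refine Finset.sum_congr rfl fun t _ => ?_
      show _ = W (s, t) / ω * algebraMap k K (a i t)
      ring
    rwa [e] at h1
  have hY : ∀ x, ge v (ex x) (Y x) := by
    rintro ⟨i, t⟩
    show ge v (if t = p' then o i else if t = p then o i else 0)
      (if t = p' then ∑ t, W' (p, t) * α i t else if t = p then ∑ t, W' (p', t) * α i t
        else α i t)
    split_ifs
    · exact hlin' i p
    · exact hlin' i p'
    · exact ge_const v _
  have hterm : ∀ m ∈ H.support, ge v (w * ∑ i, o i)
      (coeff m H * ∏ x : Lw q n, Y x ^ m x) := by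
    intro m hm
    have h1 : ge v (∑ x : Lw q n, (m x : ℤ) * ex x) (∏ x : Lw q n, Y x ^ m x) :=
      ge_prod v _ _ _ fun x _ => ge_pow v (hY x) (m x)
    have h2 := ge.mul (hH0 m) h1
    refine ge.mono h2 ?_
    rw [zero_add, Fintype.sum_prod_type, Finset.mul_sum]
    refine Finset.sum_le_sum fun i _ => ?_
    have h3 : ∑ t, (m (i, t) : ℤ) * ex (i, t) =
        ((m (i, p) : ℤ) + m (i, p')) * o i := by
      have h4 : ∀ t ∉ ({p, p'} : Finset (Fin (n + 1))), (m (i, t) : ℤ) * ex (i, t) = 0 := by
        intro t ht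
        simp only [Finset.mem_insert, Finset.mem_singleton, not_or] at ht
        have : ex (i, t) = 0 := by
          show (if t = p' then o i else if t = p then o i else 0) = 0
          rw [if_neg ht.2, if_neg ht.1]
        rw [this, mul_zero]
      rw [← Finset.sum_subset (Finset.subset_univ ({p, p'} : Finset (Fin (n + 1))))
        (fun t _ ht => h4 t ht), Finset.sum_pair hne]
      have e1 : ex (i, p) = o i := by
        show (if p = p' then o i else if p = p then o i else 0) = o i
        rw [if_neg hne, if_pos rfl]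
      have e2 : ex (i, p') = o i := by
        show (if p' = p' then o i else if p' = p then o i else 0) = o i
        rw [if_pos rfl]
      rw [e1, e2]
      ring
    rw [h3]
    apply mul_le_mul_of_nonneg_right _ (ho0 i)
    have := hHm m hm i
    exact_mod_cast this
  have hfin : ge v (w * ∑ i, o i) (aeval W' (spa a G)) := by
    rw [aeval_spa, ← hev, MvPolynomial.eval_eq']
    exact ge_sum v _ _ _ hterm
  have hscale : aeval W (spa a G) = ω ^ M * aeval W' (spa a G) := by
    conv_lhs => rw [hWW]
    exact aeval_scale (spa_hom a hHom) ω W'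
  rw [hscale]
  refine ge.mul ?_ hfin
  rw [← hord]
  right
  rw [v.ord_pow]

end Pool.Agent.H1.LT.LO5
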